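import Mathlib
import Pool.Agent.H.MP_6e75db_lc.A
import Pool.Agent.H.MP_bbbdfa_lc.A

set_option autoImplicit false

namespace Pool.Agent.H.MP_522602_lc

open Set Filter Function Cardinal Topology Pool.Agent.H.MP_77d395_lc Pool.Agent.H.MP_6e75db_lc

/-- Tukey-top ultrafilters -/
def Top (U : Ultrafilter ℕ) : Prop := ∃ (ι : Type) (A : ι → Set ℕ), #ι = 𝔠 ∧ (∀ i, A i ∈ U) ∧
  ∀ J : Set ι, J.Infinite → J.Countable → (⋂ i ∈ J, A i) ∉ U

/-- the principle diamond minus -/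
def Dm (U : Ultrafilter ℕ) : Prop := ∃ (f π : ℕ → ℕ) (𝒜 : ℕ → Finset (Set ℕ)) (T : Set (Set ℕ)),
  #T = 𝔠 ∧ (∀ n, (∀ S ∈ 𝒜 n, S ⊆ Iio (f n)) ∧ (𝒜 n).card ≤ π n) ∧
    (∀ X ∈ T, {n | X ∩ Iio (f n) ∈ 𝒜 n} ∈ U) ∧ ∀ g : ℕ → ℕ, {n | g (π n) < f n} ∈ U

def p (n : ℕ) : ℕ := n.unpair.1

def fb (A : Set ℕ) (m : ℕ) : Set ℕ := {n ∈ A | p n = m}

def Tk (k : (ℕ → ℕ → Bool) × (ℕ → ℕ)) (x : Set ℕ) : Prop :=
  (∀ m, ∃ L : ℕ → Bool, ∀ j, {n ∈ fb x m | k.1 n j ≠ L j}.Finite) ∧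
    ((∃ c, ∀ n ∈ x, k.2 (p n) = c) ∨ InjOn k.2 (p '' x))

def Sp (k : (ℕ → ℕ → Bool) × (ℕ → ℕ)) (a : I) (g : I → Set ℕ) (x : Set ℕ) : Prop :=
  (∃ᶠ m in atTop, (fb x m).Infinite) ∧ (∀ b < a, ∀ᶠ m in atTop, (fb x m \ g b).Finite) ∧
    (a ≠ o → Tk k x ∧ ∀ m, (fb x m).Finite ∨ ∃ b < a, fb x m ⊆ g b ∧ ∃ Q : Set ℕ, Q.Infinite ∧
      Q ⊆ fb (g b) m \ x ∧ ∀ c ∈ Ioo b a, (Q ∩ g c).Finite ∧ (fb x m ∩ g c).Finite)

theorem cg {k : (ℕ → ℕ → Bool) × (ℕ → ℕ)} {a : I} {g h : I → Set ℕ} {x : Set ℕ}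
    (e : ∀ b < a, g b = h b) (s : Sp k a g x) : Sp k a h x :=
  ⟨s.1, fun b l => e b l ▸ s.2.1 b l, fun n => ⟨(s.2.2 n).1, fun m => ((s.2.2 n).2 m).imp_right
    fun ⟨b, l, u, Q, q1, q2, q3⟩ => ⟨b, l, e b l ▸ u, Q, q1, e b l ▸ q2,
      fun c r => e c r.2 ▸ q3 c r⟩⟩⟩

theorem rm {τ : I → (ℕ → ℕ → Bool) × (ℕ → ℕ)} {g : I → Set ℕ} {m : ℕ} (a : I) :
    (∀ b < a, Sp (τ b) b g (g b)) → ∀ b G, G.Finite → G ⊆ Ioo b a → (fb (g b) m).Infinite →
      (fb (g b) m \ ⋃ c ∈ G, g c).Infinite := by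
  refine wellFounded_lt.induction (C := fun a => (∀ b < a, Sp (τ b) b g (g b)) → ∀ b G, G.Finite →
    G ⊆ Ioo b a → (fb (g b) m).Infinite → (fb (g b) m \ ⋃ c ∈ G, g c).Infinite) a
      fun a ih s b G f u i => ?_
  rcases G.eq_empty_or_nonempty with rfl | n
  · simpa using i
  obtain ⟨d, d1, d2⟩ := exists_max_image G id f n
  have k := ih d (u d1).2 (fun c l => s c (l.trans (u d1).2)) b
  have v : G \ {d} ⊆ Ioo b d := fun c r => ⟨(u r.1).1, (d2 c r.1).lt_of_ne r.2⟩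
  have w : ∀ {n}, n ∉ ⋃ c ∈ G \ {d}, g c → n ∉ g d → n ∉ ⋃ c ∈ G, g c := fun x y z =>
    let ⟨c, c1, c2⟩ := mem_iUnion₂.1 z
    (em (c = d)).elim (fun e => y (e ▸ c2)) fun e => x (mem_biUnion ⟨c1, e⟩ c2)
  have z : (fb (g d) m ∩ g b).Finite → (fb (g b) m \ ⋃ c ∈ G, g c).Infinite := fun y =>
    ((k _ f.sdiff v i).sdiff y).mono fun n r => ⟨r.1.1, w r.1.2 fun t => r.2 ⟨⟨t, r.1.1.2⟩, r.1.1.1⟩⟩
  rcases ((s d (u d1).2).2.2 ((ol b).trans_lt (u d1).1).ne').2 m with y | ⟨c, l, y, Q, q1, q2, q3⟩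
  · exact z (y.inter_of_left _)
  rcases lt_trichotomy b c with r | rfl | r
  · exact (k _ (f.sdiff.insert c) (insert_subset ⟨r, l⟩ v) i).mono fun n t => ⟨t.1, w (fun j => t.2
      (biUnion_subset_biUnion_left (subset_insert _ _) j)) fun j => t.2
        (mem_biUnion (mem_insert _ _) (y ⟨j, t.1.2⟩))⟩
  · exact (q1.sdiff (f.sdiff.biUnion fun c r => (q3 c (v r)).1)).mono fun n t => ⟨(q2 t.1).1,
      w (fun j => let ⟨c, c1, c2⟩ := mem_iUnion₂.1 j; t.2 (mem_biUnion c1 ⟨t.1, c2⟩)) (q2 t.1).2⟩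
  exact z (q3 b ⟨r, (u d1).1⟩).2

theorem st {τ : I → (ℕ → ℕ → Bool) × (ℕ → ℕ)} {g : I → Set ℕ} {a : I}
    (s : ∀ b < a, Sp (τ b) b g (g b)) : ∃ x, Sp (τ a) a g x := by
  rcases (ol a).eq_or_lt with rfl | l
  · exact ⟨Set.univ, .of_forall fun m => infinite_of_injective_forall_mem
      (f := Nat.pair m) (fun _ _ e => (Nat.pair_eq_pair.1 e).2) (by simp [fb, p]),
        fun b l => (l.not_ge (ol b)).elim, fun n => (n rfl).elim⟩
  obtain ⟨u, hu⟩ := ((cI a).mono Iio_subset_Iic_self).exists_eq_range ⟨o, l⟩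
  choose v v1 v2 using fun k => exists_max_image (Iic k) u (finite_Iic k) nonempty_Iic
  have u1 : ∀ n, u n < a := fun n => hu.ge (mem_range_self n)
  obtain ⟨φ, φ1, φ2⟩ := extraction_forall_of_frequently fun k => (s _ (u1 (v k))).1.and_eventually
    ((eventually_all_finite (finite_Iic k)).2 fun i r => show ∀ᶠ m in atTop,
      (fb (g (u (v k))) m \ g (u i)).Finite from (v2 k i r).eq_or_lt.elim
        (fun e => .of_forall fun m => e ▸ finite_empty.subset fun n t => t.2 t.1.1)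
          ((s _ (u1 _)).2.1 _))
  have : ∀ k, ∃ (t : ℕ → ℕ) (L : ℕ → Bool), Injective t ∧ (∀ j, t j ∈ fb (g (u (v k))) (φ k)) ∧
      (∀ c ∈ Ioo (u (v k)) a, {j | t j ∈ g c}.Finite) ∧
        ∀ i, {j | (τ a).1 (t j) i ≠ L i}.Finite := fun k => by
    obtain ⟨t, t1, t2⟩ := extraction_forall_of_frequently fun n => Nat.frequently_atTop_iff_infinite.2
      (rm a s _ (u '' Iic n ∩ Ioi (u (v k))) (((finite_Iic n).image u).inter_of_left _)
        (fun c r => ⟨r.2, r.1.elim fun i e => e.2 ▸ u1 i⟩) (φ2 k).1)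
    obtain ⟨L, w, w1, w2⟩ := CompactSpace.tendsto_subseq fun j => (τ a).1 (t j)
    refine ⟨t ∘ w, L, (t1.comp w1).injective, fun j => (t2 _).1, fun c r => ?_, fun i => ?_⟩
    · obtain ⟨i, rfl⟩ := hu.le r.2
      exact (finite_lt_nat i).subset fun j z => not_le.1 fun y => (t2 (w j)).2
        (mem_biUnion (x := u i) ⟨⟨i, y.trans (w1.id_le j), rfl⟩, r.1⟩ z)
    exact eventually_cofinite.1 (Nat.cofinite_eq_atTop ▸ tendsto_pure.1
      (nhds_discrete Bool ▸ tendsto_pi_nhds.1 w2 i))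
  choose t L t1 t2 t3 t4 using this
  obtain ⟨H, H1, H2⟩ : ∃ H : Set ℕ, H.Infinite ∧ ((∃ c, ∀ k ∈ H, (τ a).2 (φ k) = c) ∨
      InjOn (fun k => (τ a).2 (φ k)) H) := by
    by_cases h : (range fun k => (τ a).2 (φ k)).Finite
    · haveI := h.to_subtype
      obtain ⟨c, e⟩ := Finite.exists_infinite_fiber (rangeFactorization fun k => (τ a).2 (φ k))
      exact ⟨_, infinite_coe_iff.1 e, .inl ⟨c, fun k r => congrArg Subtype.val r⟩⟩
    obtain ⟨H, -, e⟩ := exists_subset_bijOn Set.univ fun k => (τ a).2 (φ k)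
    exact ⟨H, fun f => h (image_univ ▸ e.image_eq ▸ f.image _), .inr e.injOn⟩
  have i : ∀ k, Injective fun j => t k (2 * j) := fun k _ _ e => by have := t1 k e; omega
  have y : ∀ {k n}, n ∈ fb {n | ∃ k ∈ H, ∃ j, t k (2 * j) = n} (φ k) → ∃ j, t k (2 * j) = n :=
    fun ⟨⟨_, _, j, e⟩, r⟩ => φ1.injective ((t2 _ _).2.symm.trans (e ▸ r)) ▸ ⟨j, e⟩
  have z : ∀ m, fb {n | ∃ k ∈ H, ∃ j, t k (2 * j) = n} m = ∅ ∨ ∃ k, φ k = m := fun m =>
    (eq_empty_or_nonempty _).imp_right fun ⟨_, ⟨k, _, j, e⟩, r⟩ => ⟨k, (t2 _ _).2.symm.trans (e ▸ r)⟩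
  refine ⟨{n | ∃ k ∈ H, ∃ j, t k (2 * j) = n}, Nat.frequently_atTop_iff_infinite.2
    ((H1.image φ1.injective.injOn).mono ?_), fun b l => ?_, fun _ => ⟨⟨fun m => ?_, ?_⟩, fun m => ?_⟩⟩
  · rintro _ ⟨k, r, rfl⟩
    exact infinite_of_injective_forall_mem (i k) fun j => ⟨⟨k, r, j, rfl⟩, (t2 _ _).2⟩
  · obtain ⟨n, rfl⟩ := hu.le l
    filter_upwards [eventually_ge_atTop (φ n)] with m r
    rcases z m with e | ⟨k, rfl⟩
    · simp [e]
    exact ((φ2 k).2 n (φ1.le_iff_le.1 r)).subset fun x w => ⟨(y w.1).elim fun j e => e ▸ t2 _ _, w.2⟩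
  · rcases z m with e | ⟨k, rfl⟩
    · simp [e]
    exact ⟨L k, fun j => ((t4 k j).image (t k)).subset fun x w =>
      (y w.1).elim fun j e => by subst e; exact ⟨_, w.2, rfl⟩⟩
  · rcases H2 with ⟨c, e⟩ | e
    · refine .inl ⟨c, ?_⟩
      rintro _ ⟨k, r, j, rfl⟩
      exact (t2 _ _).2 ▸ e k r
    right
    rintro _ ⟨_, ⟨k, r, j, rfl⟩, rfl⟩ _ ⟨_, ⟨k', r', j', rfl⟩, rfl⟩ w
    rw [(t2 _ _).2, (t2 _ _).2] at w ⊢
    exact congrArg φ (e r r' w)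
  rcases z m with e | ⟨k, rfl⟩
  · simp [e]
  refine .inr ⟨_, u1 (v k), fun x w => (y w).elim fun j e => e ▸ (t2 _ _).1,
    range fun j => t k (2 * j + 1), infinite_range_of_injective fun _ _ e => by
      have := t1 k e; omega, ?_, fun c r => ⟨((t3 k c r).image (t k)).subset ?_,
        ((t3 k c r).image (t k)).subset fun x w => (y w.1).elim fun j e => by
          subst e; exact ⟨_, w.2, rfl⟩⟩⟩
  · rintro _ ⟨j, rfl⟩
    exact ⟨t2 _ _, fun w => (y ⟨w, (t2 _ _).2⟩).elim fun j e => by have := t1 k e; omega⟩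
  rintro _ ⟨⟨j, rfl⟩, w⟩
  exact ⟨_, w, rfl⟩

theorem ul (h : (𝔠 : Cardinal.{0}) = ℵ₁) : ∃ U : Ultrafilter ℕ, Top U ∧
    (∀ A, (∀ m, (fb A m).Finite) → A ∉ U) ∧ ∀ k, ∃ x ∈ U, Tk k x := by
  obtain ⟨e⟩ := Cardinal.eq.1 (show #I = #(((ℕ → ℕ → Bool) × (ℕ → ℕ)) × Bool) by
    simp [mkI, ← h])
  obtain ⟨B, hB⟩ := MP_bbbdfa_lc.rc (∅ : Set ℕ) (P := fun a g x =>
    (∀ b < a, Sp (e b).1 b g (g b)) → Sp (e a).1 a g x) fun a g =>
      (em _).elim (fun s => (st s).imp fun _ r _ => r) fun n => ⟨∅, fun s => (n s).elim⟩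
  have s : ∀ a, Sp (e a).1 a B (B a) := fun a => wellFounded_lt.induction
    (C := fun a => Sp (e a).1 a B (B a)) a fun a ih => cg (fun b l => if_pos l) (hB a fun b l => by
      simpa only [if_pos l] using cg (fun c r => (if_pos (r.trans l)).symm) (ih b l))
  have d : ∀ {a b A}, b ≤ a → (∀ᶠ m in atTop, (fb (B b) m \ A).Finite) →
      ∀ᶠ m in atTop, (fb (B a) m \ A).Finite := fun {a b A} l r => l.eq_or_lt.elim (· ▸ r) fun l =>
    (r.and ((s a).2.1 b l)).mono fun m t => (t.1.union t.2).subset fun n w =>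
      (em (n ∈ B b)).imp (fun y => ⟨⟨y, w.1.2⟩, w.2⟩) fun y => ⟨w.1, y⟩
  let F : Filter ℕ := ⟨{A | ∃ a, ∀ᶠ m in atTop, (fb (B a) m \ A).Finite}, ⟨o, by simp⟩,
    fun ⟨a, r⟩ t => ⟨a, r.mono fun m w => w.subset (sdiff_subset_sdiff_right t)⟩,
    fun ⟨a, r⟩ ⟨b, t⟩ => ⟨max a b, ((d (le_max_left a b) r).and (d (le_max_right a b) t)).mono
      fun m w => sdiff_inter ▸ w.1.union w.2⟩⟩
  have : F.NeBot := ⟨fun r => let ⟨a, t⟩ := empty_mem_iff_bot.2 r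
    let ⟨m, w⟩ := ((s a).1.and_eventually t).exists; w.1 (by simpa using w.2)⟩
  have b : ∀ a, B a ∈ Ultrafilter.of F := fun a => Ultrafilter.of_le F
    ⟨a, .of_forall fun m => finite_empty.subset fun n t => t.2 t.1.1⟩
  have z : ∀ A, (∀ m, (fb A m).Finite) → A ∉ Ultrafilter.of F := fun A r =>
    Ultrafilter.compl_mem_iff_notMem.1 (Ultrafilter.of_le F ⟨o, .of_forall fun m => (r m).subset
      fun n t => ⟨not_not.1 t.2, t.1.2⟩⟩)
  refine ⟨.of F, ⟨I, B, mkI.trans h.symm, b, fun J i c r => ?_⟩, z, fun k => ?_⟩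
  · have y : ∀ m a, {c < a | (fb (B a) m ∩ B c).Infinite}.Finite := fun m a => by
      refine wellFounded_lt.induction (C := fun a => {c < a | (fb (B a) m ∩ B c).Infinite}.Finite)
        a fun a ih => ?_
      rcases (ol a).eq_or_lt with rfl | l
      · exact finite_empty.subset fun c t => t.1.not_ge (ol c)
      rcases ((s a).2.2 l.ne').2 m with t | ⟨d, l, t, Q, -, -, q⟩
      · exact finite_empty.subset fun c w => w.2 (t.inter_of_left _)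
      exact ((ih d l).insert d).subset fun c w => (not_lt.1 fun j => w.2 (q c ⟨j, w.1⟩).2).eq_or_lt.imp
        id fun j => ⟨j, w.2.mono fun n x => ⟨⟨t x.1, x.1.2⟩, x.2⟩⟩
    obtain ⟨a, t⟩ := bd c
    refine z _ (fun m => ?_) (inter_mem (b a) r)
    obtain ⟨c, c1, c2⟩ := i.exists_notMem_finite (y m a)
    exact (not_infinite.1 fun w => c2 ⟨t c c1, w⟩).subset fun n w =>
      ⟨⟨w.1.1, w.2⟩, mem_iInter₂.1 w.1.2 c c1⟩
  obtain ⟨i, r⟩ : ∃ i, e.symm (k, i) ≠ o := by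
    by_contra! n
    simpa using (n true).trans (n false).symm
  exact ⟨_, b _, by simpa using ((s _).2.2 r).1⟩

theorem main (h : (𝔠 : Cardinal.{0}) = ℵ₁) : ∃ U : Ultrafilter ℕ, Top U ∧ ¬ Dm U := by
  classical
  obtain ⟨U, u1, u2, u3⟩ := ul h
  refine ⟨U, u1, fun ⟨f, π, 𝒜, T, c, a, t, s⟩ => ?_⟩
  have nc : ¬ T.Countable := fun r => (le_aleph0_iff_set_countable.2 r).not_gt
    (c ▸ aleph0_lt_continuum)
  have df : ∀ {A B}, A ∈ U → (∀ m, (fb (A \ B) m).Finite) → B ∈ U := fun {A B} r w =>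
    by_contra fun n => u2 _ w (inter_mem r (Ultrafilter.compl_mem_iff_notMem.2 n))
  have sk : ∀ q : ℕ → ℕ, (∃ k : ℕ → ℕ, {n | q n = k (p n)} ∈ U) ∨
      ∃ B ∈ U, ∀ m j, {n ∈ fb B m | q n = j}.Finite := fun q => by
    obtain ⟨B, b, l, -⟩ := u3 (fun n j => decide (q n = j), id)
    choose L hL using l
    rcases U.mem_or_compl_mem {n | ∃ j, L (p n) j = true} with r | r
    · choose! k hk using fun m (r : ∃ j, L m j = true) => r
      exact .inl ⟨k, df (inter_mem b r) fun m => (hL m (k m)).subset fun n w => ⟨⟨w.1.1.1, w.2⟩, by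
        obtain rfl := w.2
        simpa [hk _ w.1.1.2] using w.1.2⟩⟩
    exact .inr ⟨_, inter_mem b r, fun m j => (hL m j).subset fun n w => ⟨⟨w.1.1.1, w.1.2⟩, by
      obtain rfl := w.1.2
      simpa [w.2] using fun e => w.1.1.2 ⟨j, e⟩⟩⟩
  rcases sk π with ⟨k, b⟩ | ⟨B, b, r⟩
  swap
  · have w : ∀ j, ∃ l, ∀ n ∈ B, p n < π n → π n = j → f n ≤ l := fun j =>
      (((finite_lt_nat j).biUnion fun m _ => r m j).image f).bddAbove.imp fun l w n x y z =>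
        w ⟨n, mem_biUnion (z ▸ y) ⟨⟨x, rfl⟩, z⟩, rfl⟩
    choose g hg using w
    obtain ⟨n, ⟨x, y⟩, z⟩ := U.nonempty_of_mem (inter_mem (df (B := B ∩ {n | p n < π n}) b fun m =>
      ((finite_le_nat m).biUnion fun j _ => r m j).subset fun n w => mem_biUnion
        ((not_lt.1 fun y : p n < π n => w.1.2 ⟨w.1.1, y⟩).trans_eq w.2) ⟨⟨w.1.1, w.2⟩, rfl⟩) (s g))
    exact (hg _ n x y rfl).not_gt z
  rcases sk f with ⟨l, d⟩ | ⟨B, d, r⟩
  · obtain ⟨B, e, -, ⟨j, w⟩ | w⟩ := u3 (default, k)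
    · obtain ⟨S, S1, S2⟩ := (show T.Infinite from fun r => nc r.countable).exists_subset_card_eq (j + 1)
      have : ∀ X Y : Set ℕ, X ∩ Iio 0 = Y ∩ Iio 0 → ∀ᶠ n in U, X ∩ Iio (f n) = Y ∩ Iio (f n) →
          X = Y := fun X Y _ => by
        by_cases x : X = Y
        · simp [x]
        obtain ⟨i, y⟩ := not_forall.1 (mt Set.ext x)
        exact mem_of_superset (s fun _ => i) fun n z v => (y (by
          simpa [show i < f n from z] using Set.ext_iff.1 v i)).elim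
      obtain ⟨n, x1, x2, x3, x4⟩ := (Eventually.and b (Eventually.and e (Eventually.and
        ((eventually_all_finset S).2 fun X r => t X (S1 r)) ((eventually_all_finset S).2 fun X _ =>
          (eventually_all_finset S).2 fun Y _ => this X Y (by simp))))).exists
      have := Finset.card_le_card_of_injOn (fun X => X ∩ Iio (f n)) x3 fun X r Y v => x4 X r Y v
      have := (a n).2
      have := x1.trans (w n x2)
      omega
    obtain ⟨n, ⟨x, y⟩, z, v⟩ := U.nonempty_of_mem (inter_mem (inter_mem b d) (inter_mem e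
      (s fun j => l (invFunOn k (p '' B) j))))
    simp only [mem_ofPred_eq] at x y v
    rw [x, y, w.leftInvOn_invFunOn ⟨n, z, rfl⟩] at v
    exact v.false
  let e (n i : ℕ) : Set ℕ := ((𝒜 n).toList[i]?).getD ∅
  obtain ⟨C, w, l, -⟩ := u3 (fun n j => decide (j.unpair.2 ∈ e n j.unpair.1), id)
  choose L hL using l
  refine nc ((countable_range fun q : ℕ × ℕ => {j | L q.1 (q.2.pair j) = true}).mono fun X x => ?_)
  obtain ⟨m, y⟩ := not_forall.1 fun y => u2 _ y (inter_mem (inter_mem b d) (inter_mem w (t X x)))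
  obtain ⟨i, z⟩ : ∃ i, {n ∈ fb B m ∩ fb C m | X ∩ Iio (f n) = e n i}.Infinite := by
    by_contra! z
    refine y (((finite_lt_nat (k m)).biUnion fun i _ => z i).subset fun n v => ?_)
    obtain ⟨i, v1⟩ := List.mem_iff_getElem?.1 (Finset.mem_toList.2 v.1.2.2)
    exact mem_biUnion (show i < k m from ((List.getElem?_eq_some_iff.1 v1).1.trans_eq
      (𝒜 n).length_toList).trans_le ((a n).2.trans_eq (v.2 ▸ v.1.1.1)))
        ⟨⟨⟨v.1.1.2, v.2⟩, v.1.2.1, v.2⟩, by simp [e, v1]⟩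
  refine ⟨(m, i), Set.ext fun j => ?_⟩
  obtain ⟨n, v1, v2⟩ := z.exists_notMem_finite ((hL m (i.pair j)).union
    ((finite_le_nat j).biUnion fun i _ => r m i))
  have v3 : j < f n := not_le.1 fun v => v2 (.inr (mem_biUnion v ⟨v1.1.1, rfl⟩))
  have v4 := not_not.1 fun v => v2 (.inl ⟨v1.1.2, v⟩)
  simp [← v4, ← v1.2, v3]

end Pool.Agent.H.MP_522602_lc
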